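import Mathlib
import Pool.Agent.W599.DSN.Stm

/-!
Project DSN (MP_ac1f36_co): `8 V` quadratics in `V` variables do not have all sign patterns.
-/

set_option autoImplicit false

namespace Pool.Agent.W369.DSN.NOSH

open MvPolynomial Pool.Agent.W599.DSN

theorem binom_bound (V M : ℕ) (h : V ≤ M) :
    (∑ k ∈ Finset.range (V + 1), ((M + 1).choose k : ℝ) * 2 ^ k) ≤
      16 ^ V * (9 / 8) ^ (M + 1) := by
  have h1 : ∀ k ∈ Finset.range (V + 1), ((M + 1).choose k : ℝ) * 2 ^ k ≤
      16 ^ V * ((1 / 8 : ℝ) ^ k * 1 ^ (M + 1 - k) * ((M + 1).choose k : ℝ)) := by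
    intro k hk
    have hk' : k ≤ V := by
      rw [Finset.mem_range] at hk
      omega
    have h2 : (2 : ℝ) ^ k ≤ 16 ^ V * (1 / 8) ^ k := by
      have h3 : (16 : ℝ) ^ k ≤ 16 ^ V := pow_le_pow_right₀ (by norm_num) hk'
      have h4 : (2 : ℝ) ^ k = 16 ^ k * (1 / 8) ^ k := by
        rw [← mul_pow]
        norm_num
      rw [h4]
      gcongr
    calc ((M + 1).choose k : ℝ) * 2 ^ k ≤ ((M + 1).choose k : ℝ) * (16 ^ V * (1 / 8) ^ k) := by
          gcongr
      _ = 16 ^ V * ((1 / 8 : ℝ) ^ k * 1 ^ (M + 1 - k) * ((M + 1).choose k : ℝ)) := by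
          rw [one_pow]
          ring
  have h5 : ((1 / 8 : ℝ) + 1) ^ (M + 1) = ∑ k ∈ Finset.range (M + 1 + 1),
      (1 / 8 : ℝ) ^ k * 1 ^ (M + 1 - k) * ((M + 1).choose k : ℝ) := add_pow _ _ _
  calc (∑ k ∈ Finset.range (V + 1), ((M + 1).choose k : ℝ) * 2 ^ k)
      ≤ ∑ k ∈ Finset.range (V + 1),
        16 ^ V * ((1 / 8 : ℝ) ^ k * 1 ^ (M + 1 - k) * ((M + 1).choose k : ℝ)) :=
        Finset.sum_le_sum h1
    _ = 16 ^ V * ∑ k ∈ Finset.range (V + 1),
        ((1 / 8 : ℝ) ^ k * 1 ^ (M + 1 - k) * ((M + 1).choose k : ℝ)) := by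
        rw [Finset.mul_sum]
    _ ≤ 16 ^ V * ∑ k ∈ Finset.range (M + 1 + 1),
        ((1 / 8 : ℝ) ^ k * 1 ^ (M + 1 - k) * ((M + 1).choose k : ℝ)) := by
        apply mul_le_mul_of_nonneg_left _ (by positivity)
        apply Finset.sum_le_sum_of_subset_of_nonneg
        · intro k hk
          rw [Finset.mem_range] at hk ⊢
          omega
        · intro k _ _
          positivity
    _ = 16 ^ V * (9 / 8) ^ (M + 1) := by
        rw [← h5]
        norm_num

theorem nosh (hW : Pool.Agent.W599.DSN.WAR) : Pool.Agent.W599.DSN.NOSH := by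
  intro V κ _ _ f hV hM hdeg hex
  obtain ⟨pt, hpt⟩ := hex
  have hne : Nonempty κ := Fintype.card_pos_iff.mp (by omega)
  obtain ⟨η, hη0, hη⟩ : ∃ η : ℝ, 0 < η ∧ ∀ (D : Finset κ) (o : κ), o ∉ D →
      η < - eval (pt D) (f o) := by
    obtain ⟨x, -, hx⟩ := Finset.exists_min_image (Finset.univ : Finset (Finset κ × κ))
      (fun x => if x.2 ∈ x.1 then (1 : ℝ) else - eval (pt x.1) (f x.2))
      ⟨(∅, Classical.arbitrary κ), Finset.mem_univ _⟩
    have hpos : 0 < (if x.2 ∈ x.1 then (1 : ℝ) else - eval (pt x.1) (f x.2)) := by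
      split_ifs with h
      · exact one_pos
      · have := (hpt x.1 x.2).2 h
        linarith
    refine ⟨(if x.2 ∈ x.1 then (1 : ℝ) else - eval (pt x.1) (f x.2)) / 2, by linarith, ?_⟩
    intro D o ho
    have h1 := hx (D, o) (Finset.mem_univ _)
    simp only [if_neg ho] at h1
    linarith
  have hinj : Function.Injective
      (fun (D : Finset κ) (o : κ) => if o ∈ D then (1 : ℝ) else -1) := by
    intro D D' h
    ext o
    have h1 := congrFun h o
    simp only at h1
    by_cases ho : o ∈ D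
    · rw [if_pos ho] at h1
      by_cases ho' : o ∈ D'
      · exact ⟨fun _ => ho', fun _ => ho⟩
      · rw [if_neg ho'] at h1
        norm_num at h1
    · rw [if_neg ho] at h1
      by_cases ho' : o ∈ D'
      · rw [if_pos ho'] at h1
        norm_num at h1
      · exact ⟨fun h => absurd h ho, fun h => absurd h ho'⟩
  classical
  have hcard : (Finset.image (fun (D : Finset κ) (o : κ) => if o ∈ D then (1 : ℝ) else -1)
      Finset.univ).card = 2 ^ Fintype.card κ := by
    rw [Finset.card_image_of_injective _ hinj, Finset.card_univ, Fintype.card_finset]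
  have hdeg' : ∀ o, (f o + C η).totalDegree ≤ 2 := by
    intro o
    refine (totalDegree_add _ _).trans (max_le (hdeg o) ?_)
    rw [totalDegree_C]
    norm_num
  have hwar := hW V κ (fun o => f o + C η) hdeg'
    (Finset.image (fun (D : Finset κ) (o : κ) => if o ∈ D then (1 : ℝ) else -1) Finset.univ) (by
      intro s hs
      obtain ⟨D, -, rfl⟩ := Finset.mem_image.mp hs
      refine ⟨?_, pt D, ?_⟩
      · intro o
        by_cases ho : o ∈ D
        · left
          simp only [if_pos ho]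
        · right
          simp only [if_neg ho]
      · intro o
        simp only [map_add, eval_C]
        by_cases ho : o ∈ D
        · rw [if_pos ho]
          have := (hpt D o).1 ho
          linarith
        · rw [if_neg ho]
          have := hη D o ho
          linarith)
  rw [hcard] at hwar
  -- numerics
  have hVM : V ≤ Fintype.card κ := by omega
  have hb := binom_bound V (Fintype.card κ) hVM
  have hwar' : (2 : ℝ) ^ Fintype.card κ ≤
      (∑ k ∈ Finset.range (V + 1), ((Fintype.card κ + 1).choose k : ℝ) * 2 ^ k) * 5 ^ V := by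
    exact_mod_cast hwar
  generalize Fintype.card κ = M at hM hVM hb hwar'
  have h1 : (2 : ℝ) ^ M ≤ 80 ^ V * (9 / 8) ^ (M + 1) := by
    calc (2 : ℝ) ^ M ≤ (16 ^ V * (9 / 8) ^ (M + 1)) * 5 ^ V := by
          refine hwar'.trans ?_
          gcongr
      _ = 80 ^ V * (9 / 8) ^ (M + 1) := by
          have : (80 : ℝ) ^ V = 16 ^ V * 5 ^ V := by
            rw [← mul_pow]
            norm_num
          rw [this]
          ring
  have h2 : (2 : ℝ) ^ M = (16 / 9) ^ M * (9 / 8) ^ M := by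
    rw [← mul_pow]
    norm_num
  have h3 : (16 / 9 : ℝ) ^ M ≤ 9 / 8 * 80 ^ V := by
    have h4 : (0 : ℝ) < (9 / 8) ^ M := by positivity
    rw [h2, pow_succ] at h1
    have h5 : (16 / 9 : ℝ) ^ M * (9 / 8) ^ M ≤ (9 / 8 * 80 ^ V) * (9 / 8) ^ M := by
      linarith
    exact le_of_mul_le_mul_right h5 h4
  have h6 : (99 : ℝ) ^ V ≤ (16 / 9) ^ M := by
    calc (99 : ℝ) ^ V ≤ ((16 / 9) ^ 8) ^ V := by
          gcongr
          norm_num
      _ = (16 / 9) ^ (8 * V) := by rw [pow_mul]
      _ ≤ (16 / 9) ^ M := pow_le_pow_right₀ (by norm_num) hM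
  have h7 : (99 / 80 : ℝ) ≤ (99 / 80) ^ V := by
    calc (99 / 80 : ℝ) = (99 / 80) ^ 1 := (pow_one _).symm
      _ ≤ (99 / 80) ^ V := pow_le_pow_right₀ (by norm_num) hV
  have h8 : (99 : ℝ) ^ V = (99 / 80) ^ V * 80 ^ V := by
    rw [← mul_pow]
    norm_num
  have h9 : (0 : ℝ) < 80 ^ V := by positivity
  have h10 : (99 / 80 : ℝ) * 80 ^ V ≤ 99 ^ V := by
    rw [h8]
    gcongr
  nlinarith

end Pool.Agent.W369.DSN.NOSH
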